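import Pool.Agent.H.MP_c36447_co.B

namespace Pool.Agent.Results.MP_c36447_co.No

/-- the distance matrix of a graph: entry `(u, v)` is the graph distance from `u` to `v` -/
noncomputable def distMatrix {V : Type} (G : SimpleGraph V) : Matrix V V ℝ :=
  Matrix.of fun u v : V => (G.dist u v : ℝ)

/-- the Hamming graph `H(d, q)`: words are adjacent when they differ in exactly one coordinate -/
def hamming (d q : ℕ) : SimpleGraph (Fin d → Fin q) :=
  SimpleGraph.fromRel fun x y => hammingDist x y = 1

theorem result :
    ∃ d q : ℕ, 1 ≤ d ∧ 2 ≤ q ∧ q ≠ 4 ∧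
      ∃ (V : Type) (_ : Fintype V) (_ : DecidableEq V) (G : SimpleGraph V), G.Connected ∧
        (distMatrix G).charpoly = (distMatrix (hamming d q)).charpoly ∧
        IsEmpty (G ≃g hamming d q) :=
  ⟨136, 8, by norm_num, by norm_num, by norm_num, H.MP_c36447_co.main⟩

end Pool.Agent.Results.MP_c36447_co.No
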